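import Pool.Agent.Lib.MP_0a002e_co_h87.Final

/-!
Highly connected digraphs covered by few directed paths, or with small independence number, have
spanning `k`-connected oriented subgraphs (helper87).
-/

set_option autoImplicit false

namespace Pool.Agent.Results.MP_0a002e_co.PathCover

/-- Let `D` be a digraph which is covered by at most `m` vertex-disjoint directed paths, or has no
independent set of more than `m` vertices. If `D` is `(k(2k+2m-1)+m-1)`-connected, then `D` has a
spanning `k`-connected oriented subgraph. -/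
theorem result :
    ∀ (V : Type) [Fintype V] (k m : ℕ) (D : Digraph V), 1 ≤ k →
      ((∃ P : List (List V), P.length ≤ m ∧ (∀ p ∈ P, p.IsChain D.Adj) ∧ P.flatten.Nodup ∧
          ∀ v : V, v ∈ P.flatten) ∨
        ∀ A : Finset V, (∀ a ∈ A, ∀ b ∈ A, a ≠ b → ¬ D.Adj a b) → A.card ≤ m) →
      (k * (2 * k + 2 * m - 1) + (m - 1) + 1 ≤ Fintype.card V ∧
        ∀ S : Finset V, S.card < k * (2 * k + 2 * m - 1) + (m - 1) →
          ∀ u v : V, u ∉ S → v ∉ S →
            Relation.ReflTransGen (fun a b => D.Adj a b ∧ a ∉ S ∧ b ∉ S) u v) →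
      ∃ H : Digraph V,
        (∀ a b : V, H.Adj a b → D.Adj a b) ∧
        (∀ a b : V, H.Adj a b → ¬ H.Adj b a) ∧
        k + 1 ≤ Fintype.card V ∧
        ∀ S : Finset V, S.card < k → ∀ u v : V, u ∉ S → v ∉ S →
          Relation.ReflTransGen (fun a b => H.Adj a b ∧ a ∉ S ∧ b ∉ S) u v := by
  classical
  intro V _ k m D hk hcov hconn
  obtain ⟨P, h1, h2, h3, h4⟩ : ∃ P : List (List V), P.length ≤ m ∧
      (∀ p ∈ P, p.IsChain D.Adj) ∧ P.flatten.Nodup ∧ ∀ v : V, v ∈ P.flatten := by
    rcases hcov with h | h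
    · exact h
    · exact Pool.MP0a002eH87.gallai_milgram D.Adj m h
  obtain ⟨H, h5, h6, h7⟩ := Pool.MP0a002eH87.main_paths k m D.Adj hk P h1 h2 h3 h4 hconn.1 hconn.2
  refine ⟨⟨H⟩, h5, h6, ?_, h7⟩
  have h8 : 1 ≤ m := by
    rcases Nat.eq_zero_or_pos m with h | h
    · exfalso
      have h9 : P = [] := List.length_eq_zero_iff.1 (by omega)
      have h10 := hconn.1
      obtain ⟨v⟩ : Nonempty V := Fintype.card_pos_iff.1 (by omega)
      have h11 := h4 v
      rw [h9] at h11
      simp at h11
    · exact h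
  have h9 : k * 1 ≤ k * (2 * k + 2 * m - 1) := Nat.mul_le_mul_left _ (by omega)
  have h10 := hconn.1
  omega

end Pool.Agent.Results.MP_0a002e_co.PathCover
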