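import Pool.Agent.Lib.MP_0a002e_co_h20.DecoupleS
import Pool.Agent.Lib.MP_0a002e_co_h98.Example

/-!
Thomassen's question for large semicomplete digraphs: the exact connectivity is `2k-1`
(helper20; the sharpness by helper98).
-/

set_option autoImplicit false

namespace Pool.Agent.Results.MP_0a002e_co.Semicomplete

/-- Every `(2k-1)`-connected semicomplete digraph on at least `max(4, 12k - 10)` vertices has a
spanning `k`-connected tournament. -/
theorem positive :
    ∀ (V : Type) [Fintype V] (k : ℕ) (D : Digraph V), 1 ≤ k →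
      (∀ a b : V, a ≠ b → D.Adj a b ∨ D.Adj b a) →
      4 ≤ Fintype.card V → 12 * k ≤ Fintype.card V + 10 →
      (2 * k ≤ Fintype.card V ∧
        ∀ S : Finset V, S.card < 2 * k - 1 → ∀ u v : V, u ∉ S → v ∉ S →
          Relation.ReflTransGen (fun a b => D.Adj a b ∧ a ∉ S ∧ b ∉ S) u v) →
      ∃ H : Digraph V,
        (∀ a b : V, H.Adj a b → D.Adj a b) ∧
        (∀ a b : V, H.Adj a b → ¬ H.Adj b a) ∧
        (∀ a b : V, a ≠ b → H.Adj a b ∨ H.Adj b a) ∧
        k + 1 ≤ Fintype.card V ∧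
        ∀ S : Finset V, S.card < k → ∀ u v : V, u ∉ S → v ∉ S →
          Relation.ReflTransGen (fun a b => H.Adj a b ∧ a ∉ S ∧ b ∉ S) u v := by
  intro V _ k D hk hsc h4 hn hconn
  obtain ⟨t, ht1, ht2, ht3⟩ : ∃ t : ℕ, 4 * k ≤ t + 3 ∧ 5 * k ≤ t + 5 ∧
      2 * t + 2 * k ≤ Fintype.card V := by
    rcases Nat.lt_or_ge k 2 with h | h
    · exact ⟨1, by omega, by omega, by omega⟩
    · exact ⟨5 * k - 5, by omega, by omega, by omega⟩
  obtain ⟨H, h1, h2, h3, h4'⟩ := Pool.MP0a002eH20.main_semicomplete (D0 := D.Adj)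
    (K := 2 * k - 1) hk (by omega) ht1 ht2 ht3 hsc (Pool.MP0a002eH20.conn_of_paths hconn.2)
  refine ⟨⟨H⟩, h1, h2, h3, by omega, ?_⟩
  exact Pool.MP0a002eH20.paths_of_conn h4'

/-- For `k ≥ 1`, `n ≥ max(4, 12k - 10)` and `c ≥ 0`: every `c`-connected semicomplete digraph on
`n` vertices has a spanning `k`-connected tournament if and only if `c ≥ 2k - 1`. -/
theorem result :
    ∀ k n c : ℕ, 1 ≤ k → 4 ≤ n → 12 * k ≤ n + 10 →
      ((∀ (V : Type) [Fintype V] (D : Digraph V), Fintype.card V = n →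
        (∀ a b : V, a ≠ b → D.Adj a b ∨ D.Adj b a) →
        (c + 1 ≤ Fintype.card V ∧
          ∀ S : Finset V, S.card < c → ∀ u v : V, u ∉ S → v ∉ S →
            Relation.ReflTransGen (fun a b => D.Adj a b ∧ a ∉ S ∧ b ∉ S) u v) →
        ∃ H : Digraph V,
          (∀ a b : V, H.Adj a b → D.Adj a b) ∧
          (∀ a b : V, H.Adj a b → ¬ H.Adj b a) ∧
          (∀ a b : V, a ≠ b → H.Adj a b ∨ H.Adj b a) ∧
          k + 1 ≤ Fintype.card V ∧
          ∀ S : Finset V, S.card < k → ∀ u v : V, u ∉ S → v ∉ S →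
            Relation.ReflTransGen (fun a b => H.Adj a b ∧ a ∉ S ∧ b ∉ S) u v) ↔
      2 * k ≤ c + 1) := by
  intro k n c hk h4 hn
  constructor
  · intro h
    by_contra hc
    rcases Nat.lt_or_ge k 2 with hk2 | hk2
    · -- `k = 1`, `c = 0`: the transitive tournament
      have hc0 : c = 0 := by omega
      subst hc0
      obtain ⟨H, h1, -, -, -, h2⟩ := h (Fin n) ⟨fun a b => a < b⟩ (Fintype.card_fin n)
        (fun a b hab => lt_or_gt_of_ne hab)
        ⟨by rw [Fintype.card_fin]; omega, fun S hS => absurd hS (Nat.not_lt_zero _)⟩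
      have h3 := h2 ∅ (by rw [Finset.card_empty]; omega) ⟨n - 1, by omega⟩ ⟨0, by omega⟩
        (Finset.notMem_empty _) (Finset.notMem_empty _)
      rcases Relation.ReflTransGen.cases_head h3 with h5 | ⟨b, h5, -⟩
      · have h6 := congrArg Fin.val h5
        simp only at h6
        omega
      · have h6 : (⟨n - 1, by omega⟩ : Fin n) < b := h1 _ _ h5.1
        rw [Fin.lt_def] at h6
        simp only at h6
        have := b.2
        omega
    · obtain ⟨H, h1, h2, -, -, h3⟩ := h (Fin n) ⟨Pool.MP0a002eH98.Arc n (2 * k - 2)⟩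
        (Fintype.card_fin n) (fun a b hab => Pool.MP0a002eH98.arc_total hab)
        ⟨by rw [Fintype.card_fin]; omega, fun S hS u v hu hv =>
          Pool.MP0a002eH98.arc_conn (by omega) S (by omega) u v hu hv⟩
      exact Pool.MP0a002eH98.no_orientation hk2 (by omega) H.Adj h1 h2 h3 (by omega)
  · intro hc V _ D hV hsc hconn
    refine positive V k D hk hsc (by omega) (by omega) ⟨by omega, ?_⟩
    intro S hS
    exact hconn.2 S (by omega)

end Pool.Agent.Results.MP_0a002e_co.Semicomplete
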