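import Pool.Agent.Lib.MP_0a002e_co_h87.Even

/-!
Highly connected digraphs in which every vertex lies in few 2-cycles have spanning
`k`-connected oriented subgraphs, up to a parity defect (helper87).
-/

set_option autoImplicit false

namespace Pool.Agent.Results.MP_0a002e_co.SparseTwoCycles

/-- Let `D` be a digraph which has an oriented subgraph `E` containing an arc of every 2-cycle
of `D`, with all in-degrees at most `d` and total imbalance at most `r` (for instance: every vertex
lies in at most `2d` 2-cycles, and at most `2r` vertices lie in an odd number of them). If `D` is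
`(k+d(k-1)+r)`-connected, then `D` has a spanning `k`-connected oriented subgraph. -/
theorem result :
    ∀ (V : Type) [Fintype V] (k d r : ℕ) (D : Digraph V), 1 ≤ k →
      ((∃ E : Digraph V, (∀ a b : V, E.Adj a b → D.Adj a b) ∧
          (∀ a b : V, E.Adj a b → ¬ E.Adj b a) ∧
          (∀ a b : V, a ≠ b → D.Adj a b → D.Adj b a → E.Adj a b ∨ E.Adj b a) ∧
          (∀ v : V, Nat.card {u : V // E.Adj u v} ≤ d) ∧
          ∑ v : V, (Nat.card {u : V // E.Adj u v} - Nat.card {u : V // E.Adj v u}) ≤ r) ∨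
        ((∀ v : V, Nat.card {u : V // u ≠ v ∧ D.Adj u v ∧ D.Adj v u} ≤ 2 * d) ∧
          Nat.card {v : V // Odd (Nat.card {u : V // u ≠ v ∧ D.Adj u v ∧ D.Adj v u})} ≤ 2 * r)) →
      (k + d * (k - 1) + r + 1 ≤ Fintype.card V ∧
        ∀ S : Finset V, S.card < k + d * (k - 1) + r →
          ∀ u v : V, u ∉ S → v ∉ S →
            Relation.ReflTransGen (fun a b => D.Adj a b ∧ a ∉ S ∧ b ∉ S) u v) →
      ∃ H : Digraph V,
        (∀ a b : V, H.Adj a b → D.Adj a b) ∧
        (∀ a b : V, H.Adj a b → ¬ H.Adj b a) ∧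
        k + 1 ≤ Fintype.card V ∧
        ∀ S : Finset V, S.card < k → ∀ u v : V, u ∉ S → v ∉ S →
          Relation.ReflTransGen (fun a b => H.Adj a b ∧ a ∉ S ∧ b ∉ S) u v := by
  classical
  intro V _ k d r D hk hcov hconn
  have hnc : ∀ p : V → Prop, Nat.card {u : V // p u} = (Finset.univ.filter fun u => p u).card := by
    intro p
    rw [Nat.card_eq_fintype_card, Fintype.card_subtype]
  obtain ⟨E, h1, h2, h3, h4, h5⟩ : ∃ E : V → V → Prop, (∀ a b, E a b → D.Adj a b) ∧
      (∀ a b, E a b → ¬ E b a) ∧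
      (∀ a b, a ≠ b → D.Adj a b → D.Adj b a → E a b ∨ E b a) ∧
      (∑ v, ((Finset.univ.filter fun u => E u v).card -
        (Finset.univ.filter fun u => E v u).card) ≤ r) ∧
      ∀ v, (Finset.univ.filter fun u => E u v).card ≤ d := by
    rcases hcov with ⟨E, h1, h2, h3, h4, h5⟩ | ⟨h1, h2⟩
    · refine ⟨E.Adj, h1, h2, h3, ?_, fun v => ?_⟩
      · simp only [hnc] at h5
        exact h5
      · have h6 := h4 v
        rw [hnc] at h6
        exact h6
    · simp only [hnc] at h1 h2
      obtain ⟨E, k1, k2, k3, k4, k5⟩ := Pool.MP0a002eH87.exists_eulerian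
        (fun v u => u ≠ v ∧ D.Adj u v ∧ D.Adj v u)
        (fun a b h => ⟨h.1.symm, h.2.2, h.2.1⟩) (fun a h => h.1 rfl) d r
        (fun v => by convert h1 v) (by convert h2)
      exact ⟨E, fun a b h => (k1 a b h).2.2, k2, fun a b h h' h'' => k3 a b ⟨h.symm, h'', h'⟩,
        k4, k5⟩
  obtain ⟨H, h6, h7, h8⟩ := Pool.MP0a002eH87.main_balanced k d r D.Adj hk E h1 h2 h3 h4 h5
    hconn.1 hconn.2
  exact ⟨⟨H⟩, h6, h7, by have := hconn.1; omega, h8⟩

end Pool.Agent.Results.MP_0a002e_co.SparseTwoCycles
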